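import Pool.Agent.H29.FL4.Stmts

/-! Row BOX of the board fl4 (MP_e1ba20_an). -/

set_option autoImplicit false

open Matrix MeasureTheory

namespace Pool.FL4

open Pool.FLT

namespace BOXx

theorem L_pos : 0 < Real.log (1 + √2) := by
  apply Real.log_pos
  have : 0 < √(2 : ℝ) := by positivity
  linarith

theorem L_le : Real.log (1 + √2) ≤ 1 := by
  have h0 : 0 < √(2 : ℝ) := by positivity
  have h1 : √(2 : ℝ) ≤ 3 / 2 := by
    rw [Real.sqrt_le_left (by norm_num)]
    norm_num
  rw [Real.log_le_iff_le_exp (by linarith)]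
  have := Real.exp_one_gt_d9
  linarith

theorem comb (m : ℕ) (R A B u v : ℝ) (hA : |A| ≤ R) (hB : |B| ≤ R)
    (hu : 0 ≤ u) (hu1 : u ≤ 1) (hv : 0 ≤ v) (hv1 : v ≤ 1) :
    |(m : ℝ) * (u * A + v * B)| ≤ 2 * m * R := by
  have hm : (0 : ℝ) ≤ m := Nat.cast_nonneg m
  rw [abs_mul, abs_of_nonneg hm]
  have h1 : |u * A + v * B| ≤ 2 * R := by
    refine (abs_add_le _ _).trans ?_
    rw [abs_mul, abs_mul, abs_of_nonneg hu, abs_of_nonneg hv]
    have := mul_le_mul hu1 hA (abs_nonneg A) zero_le_one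
    have := mul_le_mul hv1 hB (abs_nonneg B) zero_le_one
    linarith
  have h2 := mul_le_mul_of_nonneg_left h1 hm
  linarith

end BOXx

open BOXx in
theorem box : BOXStmt := by
  intro m hm R A B C D hR hA hB hC hD hdet x0 x1 x2 X h0 h1 h2
  have hmR : (0 : ℝ) < m := by exact_mod_cast hm
  set L := Real.log (1 + √2) with hL
  have hL0 : 0 < L := L_pos
  have hL1 : L ≤ 1 := L_le
  have hsum : co X 0 + co X 1 + co X 2 + co X 3 = 0 := by
    have h : ∑ i, co X i = 0 := X.2
    rw [Fin.sum_univ_four] at h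
    exact h
  set p := (co X 0 + co X 1) / 2 with hp
  set a := (co X 0 - co X 1) / 2 with ha
  set b := (co X 2 - co X 3) / 2 with hb
  set U := (a * D - b * C) / (m * (A * D - B * C)) with hU
  set W := (A * b - B * a) / (m * (A * D - B * C)) with hW
  have hmd : (m : ℝ) * (A * D - B * C) ≠ 0 := mul_ne_zero hmR.ne' hdet
  have hUm : m * (A * D - B * C) * U = a * D - b * C := by
    rw [hU]
    exact mul_div_cancel₀ _ hmd
  have hWm : m * (A * D - B * C) * W = A * b - B * a := by
    rw [hW]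
    exact mul_div_cancel₀ _ hmd
  have ea : a = m * (U * A + W * C) := by
    apply mul_right_cancel₀ hdet
    linear_combination (-A) * hUm + (-C) * hWm
  have eb : b = m * (U * B + W * D) := by
    apply mul_right_cancel₀ hdet
    linear_combination (-B) * hUm + (-D) * hWm
  set Z := p / (m * L) with hZ
  have ep : p = m * L * Z := by
    rw [hZ]
    field_simp
  obtain ⟨a0, a1, a2, a3⟩ := h0
  obtain ⟨b0, b1, b2, b3⟩ := h1
  obtain ⟨c0, c1, c2, c3⟩ := h2
  have hco : ∀ (k0 k1 k2 : ℝ) (j : Fin 4), co (X + k0 • x0 + k1 • x1 + k2 • x2) j =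
      co X j + k0 * co x0 j + k1 * co x1 j + k2 * co x2 j := fun k0 k1 k2 j => rfl
  refine ⟨-⌊Z⌋, -⌊U⌋, -⌊W⌋, m * L * Int.fract Z, m * (Int.fract U * A + Int.fract W * C),
    m * (Int.fract U * B + Int.fract W * D), ?_, ?_, ?_, ?_⟩
  · have h3 := Int.fract_nonneg Z
    have h4 := (Int.fract_lt_one Z).le
    rw [abs_of_nonneg (mul_nonneg (mul_nonneg hmR.le hL0.le) h3)]
    have h5 : L * Int.fract Z ≤ 1 := by nlinarith
    calc (m : ℝ) * L * Int.fract Z = m * (L * Int.fract Z) := by ring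
      _ ≤ m * 1 := mul_le_mul_of_nonneg_left h5 hmR.le
      _ = m := mul_one _
  · exact comb m R A C _ _ hA hC (Int.fract_nonneg U) (Int.fract_lt_one U).le
      (Int.fract_nonneg W) (Int.fract_lt_one W).le
  · exact comb m R B D _ _ hB hD (Int.fract_nonneg U) (Int.fract_lt_one U).le
      (Int.fract_nonneg W) (Int.fract_lt_one W).le
  · have fZ : Int.fract Z = Z - ⌊Z⌋ := rfl
    have fU : Int.fract U = U - ⌊U⌋ := rfl
    have fW : Int.fract W = W - ⌊W⌋ := rfl
    have q0 : co X 0 = p + a := by rw [hp, ha]; ring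
    have q1 : co X 1 = p - a := by rw [hp, ha]; ring
    have q2 : co X 2 = -p + b := by rw [hp, hb]; linarith
    have q3 : co X 3 = -p - b := by rw [hp, hb]; linarith
    refine ⟨?_, ?_, ?_, ?_⟩
    · rw [hco, q0, a0, b0, c0, fZ, fU, fW]
      push_cast
      linear_combination ep + ea
    · rw [hco, q1, a1, b1, c1, fZ, fU, fW]
      push_cast
      linear_combination ep - ea
    · rw [hco, q2, a2, b2, c2, fZ, fU, fW]
      push_cast
      linear_combination -ep + eb
    · rw [hco, q3, a3, b3, c3, fZ, fU, fW]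
      push_cast
      linear_combination -ep - eb

end Pool.FL4
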